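import Mathlib

/-!
# MP_acde3d_al: every isomorphism of generalized non-coprime graphs preserves the subgroups
-/

set_option autoImplicit false

namespace Pool.Agent.Results.MP_acde3d_al.IsomorphismsPreserve

/-- The generalized non-coprime graph of the group `G` and its subgroup `H`: the vertices are the
nonidentity elements of `G`, and two distinct vertices are adjacent when their orders are not
coprime and at least one of them lies in `H`. -/
def nonCoprimeGraph (G : Type*) [Group G] (H : Subgroup G) : SimpleGraph {x : G // x ≠ 1} where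
  Adj a b := a ≠ b ∧ Nat.gcd (orderOf (a : G)) (orderOf (b : G)) ≠ 1 ∧ ((a : G) ∈ H ∨ (b : G) ∈ H)
  symm := ⟨fun a b ⟨h1, h2, h3⟩ => ⟨h1.symm, by rwa [Nat.gcd_comm], h3.symm⟩⟩
  loopless := ⟨fun _ h => h.1 rfl⟩

section basic

variable {G : Type*} [Group G] {H : Subgroup G}

theorem adj_iff {a b : {x : G // x ≠ 1}} : (nonCoprimeGraph G H).Adj a b ↔
    a ≠ b ∧ Nat.gcd (orderOf (a : G)) (orderOf (b : G)) ≠ 1 ∧ ((a : G) ∈ H ∨ (b : G) ∈ H) :=
  Iff.rfl

/-- If `v` is an involution commuting with `k` and `v` is not a power of `k`, then the order of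
`v * k` is even. -/
theorem even_mul [Finite G] {v k : G} (hv : orderOf v = 2) (hc : Commute v k)
    (hn : v ∉ Subgroup.zpowers k) : 2 ∣ orderOf (v * k) := by
  by_contra h
  have hodd : Odd (orderOf (v * k)) := Nat.not_even_iff_odd.1 (fun h' => h h'.two_dvd)
  obtain ⟨m, hm⟩ := hodd
  have h1 : (v * k) ^ orderOf (v * k) = 1 := pow_orderOf_eq_one _
  rw [hc.mul_pow] at h1
  have h2 : v ^ orderOf (v * k) = v := by
    rw [hm, pow_succ, pow_mul, ← hv, pow_orderOf_eq_one, one_pow, one_mul]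
  rw [h2] at h1
  apply hn
  have h3 : v = (k ^ orderOf (v * k))⁻¹ := eq_inv_of_mul_eq_one_left h1
  rw [h3]
  exact inv_mem (Subgroup.npow_mem_zpowers k _)

theorem orderOf_conj (g x : G) : orderOf (g * x * g⁻¹) = orderOf x := by
  have : g * x * g⁻¹ = MulAut.conj g x := rfl
  rw [this]
  exact orderOf_injective (MulAut.conj g).toMonoidHom (MulAut.conj g).injective x

/-- An involution outside a nontrivial subgroup is never the only element of even order there. -/
theorem exists_even [Finite G] (hH : H ≠ ⊥) {w : G} (hw : w ∉ H) (hw2 : orderOf w = 2) :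
    ∃ u : G, u ∉ H ∧ u ≠ w ∧ 2 ∣ orderOf u := by
  by_contra hcon
  push Not at hcon
  obtain ⟨k, hk, hk1⟩ : ∃ k : G, k ∈ H ∧ k ≠ 1 := by
    obtain ⟨k, hk⟩ := Subgroup.ne_bot_iff_exists_ne_one.1 hH
    exact ⟨(k : G), k.2, fun h => hk (Subtype.ext h)⟩
  have h1 : k * w * k⁻¹ = w := by
    by_contra hne
    refine hcon (k * w * k⁻¹) ?_ hne ?_
    · intro hmem
      apply hw
      have := H.mul_mem (H.mul_mem (H.inv_mem hk) hmem) hk
      have e : k⁻¹ * (k * w * k⁻¹) * k = w := by group
      rwa [e] at this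
    · rw [orderOf_conj, hw2]
  have hc : Commute w k := by
    have : k * w = w * k := by
      calc k * w = k * w * k⁻¹ * k := by group
        _ = w * k := by rw [h1]
    exact this.symm
  have h2 : 2 ∣ orderOf (w * k) := by
    refine even_mul hw2 hc ?_
    intro hmem
    exact hw ((Subgroup.zpowers_le.2 hk) hmem)
  refine hcon (w * k) ?_ ?_ h2
  · intro hmem
    apply hw
    have := H.mul_mem hmem (H.inv_mem hk)
    rwa [mul_inv_cancel_right] at this
  · intro h
    exact hk1 (by simpa using h)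

/-- A group with a unique element of even order has two elements. -/
theorem only_even [Finite G] {v : G} (hv : orderOf v = 2)
    (h : ∀ u : G, 2 ∣ orderOf u → u = v) (u : G) : u = 1 ∨ u = v := by
  by_cases hu : 2 ∣ orderOf u
  · exact Or.inr (h u hu)
  · left
    have hc : Commute v u := by
      have h1 : u * v * u⁻¹ = v := h _ (by rw [orderOf_conj, hv])
      have : u * v = v * u := by
        calc u * v = u * v * u⁻¹ * u := by group
          _ = v * u := by rw [h1]
      exact this.symm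
    have h2 : 2 ∣ orderOf (v * u) := by
      refine even_mul hv hc ?_
      intro hmem
      apply hu
      rw [← hv]
      exact orderOf_dvd_of_mem_zpowers hmem
    have h3 := h _ h2
    simpa using h3

theorem gcd_two_iff {n : ℕ} : Nat.gcd n 2 ≠ 1 ↔ 2 ∣ n := by
  rw [Ne, ← Nat.coprime_iff_gcd_eq_one, Nat.coprime_comm, Nat.Prime.coprime_iff_not_dvd Nat.prime_two,
    not_not]

theorem gcd_self_ne {x : G} [Finite G] (hx : x ≠ 1) : Nat.gcd (orderOf x) (orderOf x) ≠ 1 := by
  rw [Nat.gcd_self]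
  intro h
  exact hx (orderOf_eq_one_iff.1 h)

theorem orderOf_two_of_inv {x : G} (hx : x ≠ 1) (h : x⁻¹ = x) : orderOf x = 2 := by
  apply orderOf_eq_prime
  · rw [pow_two]
    calc x * x = x * x⁻¹ := by rw [h]
      _ = 1 := mul_inv_cancel x
  · exact hx

/-- The nonidentity elements of even order. -/
def E (G : Type*) [Group G] : Set {x : G // x ≠ 1} := {x | 2 ∣ orderOf (x : G)}

end basic

theorem hcardH {K : Type*} [Group K] [Finite K] (L : Subgroup K) :
    {z : {x : K // x ≠ 1} | (z : K) ∈ L}.ncard + 1 = Nat.card L := by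
  have h8 : (Subtype.val '' {z : {x : K // x ≠ 1} | (z : K) ∈ L}) = (L : Set K) \ {1} := by
    ext x
    constructor
    · rintro ⟨z, hz, rfl⟩
      exact ⟨hz, z.2⟩
    · rintro ⟨hx, hx1⟩
      exact ⟨⟨x, hx1⟩, hx, rfl⟩
  rw [← Set.ncard_image_of_injective _ Subtype.val_injective, h8,
    Set.ncard_sdiff_singleton_add_one L.one_mem (Set.toFinite _)]
  rfl

section main

variable {G G' : Type*} [Group G] [Group G'] [Finite G] [Finite G'] {H : Subgroup G}
  {H' : Subgroup G'}

/-- If a vertex in `H` is mapped outside `H'`, it is an involution. -/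
theorem stepOne (hH' : H' ≠ ⊥) (φ : nonCoprimeGraph G H ≃g nonCoprimeGraph G' H')
    {v : {x : G // x ≠ 1}} (hv : (v : G) ∈ H) (hw : (φ v : G') ∉ H') : orderOf (v : G) = 2 := by
  by_contra hne
  have hinv : (v : G)⁻¹ ≠ v := fun h => hne (orderOf_two_of_inv v.2 h)
  let v' : {x : G // x ≠ 1} := ⟨(v : G)⁻¹, fun h => v.2 (inv_eq_one.1 h)⟩
  have hv'H : (v' : G) ∈ H := H.inv_mem hv
  have hvv' : v ≠ v' := fun h => hinv (congrArg Subtype.val h).symm
  have hord : orderOf (v' : G) = orderOf (v : G) := orderOf_inv _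
  have hadj : (nonCoprimeGraph G H).Adj v v' := by
    refine ⟨hvv', ?_, Or.inl hv⟩
    rw [hord]; exact gcd_self_ne v.2
  have hadj' : (nonCoprimeGraph G' H').Adj (φ v) (φ v') := φ.map_adj_iff.2 hadj
  have hw' : (φ v' : G') ∈ H' := hadj'.2.2.resolve_left hw
  have key : ∀ u : {x : G' // x ≠ 1}, (u : G') ∉ H' →
      Nat.gcd (orderOf (u : G')) (orderOf (φ v' : G')) ≠ 1 → u = φ v := by
    intro u hu hg
    by_contra hne2
    have h1 : (nonCoprimeGraph G' H').Adj u (φ v') := by
      refine ⟨?_, hg, Or.inr hw'⟩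
      rintro rfl
      exact hu hw'
    obtain ⟨z, rfl⟩ := φ.surjective u
    have h2 : (nonCoprimeGraph G H).Adj z v' := φ.map_adj_iff.1 h1
    have h3 : (nonCoprimeGraph G H).Adj z v := by
      refine ⟨?_, ?_, Or.inr hv⟩
      · rintro rfl; exact hne2 rfl
      · rw [← hord]; exact h2.2.1
    have h4 : (nonCoprimeGraph G' H').Adj (φ z) (φ v) := φ.map_adj_iff.2 h3
    rcases h4.2.2 with h | h
    · exact hu h
    · exact hw h
  have hwinv : ((φ v : G'))⁻¹ = φ v := by
    have h1 := key ⟨((φ v : G'))⁻¹, fun h => (φ v).2 (inv_eq_one.1 h)⟩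
      (fun h => hw (by simpa using H'.inv_mem h)) (by
        change Nat.gcd (orderOf ((φ v : G'))⁻¹) _ ≠ 1
        rw [orderOf_inv]; exact hadj'.2.1)
    exact congrArg Subtype.val h1
  have hw2 : orderOf (φ v : G') = 2 := orderOf_two_of_inv (φ v).2 hwinv
  have h2 : 2 ∣ orderOf (φ v' : G') := by
    have := hadj'.2.1
    rw [hw2, Nat.gcd_comm] at this
    exact gcd_two_iff.1 this
  obtain ⟨u, hu1, hu2, hu3⟩ := exists_even hH' hw hw2
  have hu0 : u ≠ 1 := by rintro rfl; exact hu1 H'.one_mem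
  have h3 := key ⟨u, hu0⟩ hu1 (by
    intro hg
    have h5 : 2 ∣ Nat.gcd (orderOf u) (orderOf (φ v' : G')) := Nat.dvd_gcd hu3 h2
    have h6 : Nat.gcd (orderOf u) (orderOf (φ v' : G')) = 1 := hg
    rw [h6] at h5
    omega)
  exact hu2 (congrArg Subtype.val h3)

/-- If a vertex in `H` is mapped outside `H'`, its image is an involution. -/
theorem stepTwo (φ : nonCoprimeGraph G H ≃g nonCoprimeGraph G' H')
    {v : {x : G // x ≠ 1}} (hv : (v : G) ∈ H) (hw : (φ v : G') ∉ H') (hv2 : orderOf (v : G) = 2) :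
    orderOf (φ v : G') = 2 := by
  by_contra hne
  have hinv : (φ v : G')⁻¹ ≠ φ v := fun h => hne (orderOf_two_of_inv (φ v).2 h)
  obtain ⟨x, hx⟩ := φ.surjective ⟨(φ v : G')⁻¹, fun h => (φ v).2 (inv_eq_one.1 h)⟩
  have hxH' : (φ x : G') ∉ H' := by
    rw [hx]
    exact fun h => hw (by simpa using H'.inv_mem h)
  have hord : orderOf (φ x : G') = orderOf (φ v : G') := by
    rw [hx]; exact orderOf_inv _
  have hxv : x ≠ v := by
    rintro rfl
    apply hinv
    exact (congrArg Subtype.val hx).symm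
  have htwin : ∀ u, (nonCoprimeGraph G H).Adj u v ↔ (nonCoprimeGraph G H).Adj u x := by
    have aux : ∀ u, (nonCoprimeGraph G H).Adj u v ↔
        ((φ u : G') ∈ H' ∧ Nat.gcd (orderOf (φ u : G')) (orderOf (φ v : G')) ≠ 1) := by
      intro u
      rw [← φ.map_adj_iff, adj_iff]
      constructor
      · rintro ⟨_, h2, h3⟩
        exact ⟨h3.resolve_right hw, h2⟩
      · rintro ⟨h1, h2⟩
        refine ⟨?_, h2, Or.inl h1⟩
        intro h
        rw [h] at h1
        exact hw h1
    have aux' : ∀ u, (nonCoprimeGraph G H).Adj u x ↔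
        ((φ u : G') ∈ H' ∧ Nat.gcd (orderOf (φ u : G')) (orderOf (φ v : G')) ≠ 1) := by
      intro u
      rw [← φ.map_adj_iff, adj_iff, ← hord]
      constructor
      · rintro ⟨_, h2, h3⟩
        exact ⟨h3.resolve_right hxH', h2⟩
      · rintro ⟨h1, h2⟩
        refine ⟨?_, h2, Or.inl h1⟩
        intro h
        rw [h] at h1
        exact hxH' h1
    intro u
    rw [aux, aux']
  have hxodd : ¬ 2 ∣ orderOf (x : G) := by
    intro h
    have h1 : (nonCoprimeGraph G H).Adj x v := ⟨hxv, by rw [hv2]; exact gcd_two_iff.2 h, Or.inr hv⟩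
    exact ((htwin x).1 h1).1 rfl
  have hxinv : (x : G)⁻¹ ≠ x := by
    intro h
    exact hxodd (by rw [orderOf_two_of_inv x.2 h])
  have hxH : (x : G) ∉ H := by
    intro hxH
    let x' : {x : G // x ≠ 1} := ⟨(x : G)⁻¹, fun h => x.2 (inv_eq_one.1 h)⟩
    have h1 : (nonCoprimeGraph G H).Adj x' x := by
      refine ⟨fun h => hxinv (congrArg Subtype.val h), ?_, Or.inr hxH⟩
      change Nat.gcd (orderOf (x : G)⁻¹) _ ≠ 1
      rw [orderOf_inv]; exact gcd_self_ne x.2
    have h2 := (htwin x').2 h1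
    have h3 := h2.2.1
    rw [hv2] at h3
    have h4 := gcd_two_iff.1 h3
    change 2 ∣ orderOf (x : G)⁻¹ at h4
    rw [orderOf_inv] at h4
    exact hxodd h4
  have huniq : ∀ t : G, orderOf t = 2 → t = v := by
    intro t ht
    by_contra hne2
    have ht1 : t ≠ 1 := by
      rintro rfl
      rw [orderOf_one] at ht
      omega
    have h1 : (nonCoprimeGraph G H).Adj ⟨t, ht1⟩ v := by
      refine ⟨fun h => hne2 (congrArg Subtype.val h), ?_, Or.inr hv⟩
      rw [hv2, gcd_two_iff]
      change 2 ∣ orderOf t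
      rw [ht]
    have h2 := ((htwin _).1 h1).2.1
    have h3 : Nat.gcd (orderOf t) (orderOf (x : G)) ≠ 1 := h2
    rw [ht, Nat.gcd_comm] at h3
    exact hxodd (gcd_two_iff.1 h3)
  have hc : Commute (v : G) (x : G) := by
    have h1 : (x : G) * v * (x : G)⁻¹ = v := huniq _ (by rw [orderOf_conj, hv2])
    have : (x : G) * v = v * x := by
      calc (x : G) * v = (x : G) * v * (x : G)⁻¹ * x := by group
        _ = v * x := by rw [h1]
    exact this.symm
  have heven : 2 ∣ orderOf ((v : G) * x) := by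
    refine even_mul hv2 hc ?_
    intro hmem
    apply hxodd
    rw [← hv2]
    exact orderOf_dvd_of_mem_zpowers hmem
  have hvx1 : (v : G) * x ≠ 1 := by
    intro h
    rw [h, orderOf_one] at heven
    omega
  have h1 : (nonCoprimeGraph G H).Adj ⟨(v : G) * x, hvx1⟩ v := by
    refine ⟨?_, ?_, Or.inr hv⟩
    · intro h
      have h' : (v : G) * x = v := congrArg Subtype.val h
      exact x.2 (by simpa using h')
    · rw [hv2]; exact gcd_two_iff.2 heven
  have h2 := ((htwin _).1 h1).2.2
  rcases h2 with h2 | h2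
  · have h3 : (v : G) * x ∈ H := h2
    exact hxH ((H.mul_mem_cancel_left hv).1 h3)
  · exact hxH h2

/-- The images of the other even-order elements are the even-order elements of `H'`. -/
theorem stepThree (φ : nonCoprimeGraph G H ≃g nonCoprimeGraph G' H')
    {v : {x : G // x ≠ 1}} (hv : (v : G) ∈ H) (hw : (φ v : G') ∉ H') (hv2 : orderOf (v : G) = 2)
    (hw2 : orderOf (φ v : G') = 2) (u : {x : G // x ≠ 1}) :
    (u ≠ v ∧ u ∈ E G) ↔ ((φ u : G') ∈ H' ∧ φ u ∈ E G') := by
  have h1 : (u ≠ v ∧ u ∈ E G) ↔ (nonCoprimeGraph G H).Adj u v := by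
    rw [adj_iff, hv2, gcd_two_iff]
    constructor
    · rintro ⟨h1, h2⟩
      exact ⟨h1, h2, Or.inr hv⟩
    · rintro ⟨h1, h2, _⟩
      exact ⟨h1, h2⟩
  rw [h1, ← φ.map_adj_iff, adj_iff, hw2, gcd_two_iff]
  constructor
  · rintro ⟨_, h2, h3⟩
    exact ⟨h3.resolve_right hw, h2⟩
  · rintro ⟨h1, h2⟩
    refine ⟨?_, h2, Or.inl h1⟩
    intro h
    rw [h] at h1
    exact hw h1

theorem card_lt (hH' : H' ≠ ⊥) (φ : nonCoprimeGraph G H ≃g nonCoprimeGraph G' H')
    {v : {x : G // x ≠ 1}} (hv : (v : G) ∈ H) (hw : (φ v : G') ∉ H') :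
    (E G).ncard < (E G').ncard := by
  have hv2 := stepOne hH' φ hv hw
  have hw2 := stepTwo φ hv hw hv2
  have h3 := stepThree φ hv hw hv2 hw2
  obtain ⟨u, hu1, hu2, hu3⟩ := exists_even hH' hw hw2
  have hu0 : u ≠ 1 := by rintro rfl; exact hu1 H'.one_mem
  have hvE : v ∈ E G := by
    change 2 ∣ orderOf (v : G)
    rw [hv2]
  -- the image of `E G` under a modified map
  have himg : φ '' (E G \ {v}) = {x : {x : G' // x ≠ 1} | (x : G') ∈ H' ∧ x ∈ E G'} := by
    ext y
    constructor
    · rintro ⟨z, ⟨hz1, hz2⟩, rfl⟩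
      exact (h3 z).1 ⟨hz2, hz1⟩
    · intro hy
      obtain ⟨z, rfl⟩ := φ.surjective y
      have := (h3 z).2 hy
      exact ⟨z, ⟨this.2, this.1⟩, rfl⟩
  have hcard1 : (E G \ {v}).ncard + 1 = (E G).ncard :=
    Set.ncard_sdiff_singleton_add_one hvE (Set.toFinite _)
  have hcard2 : (φ '' (E G \ {v})).ncard = (E G \ {v}).ncard :=
    Set.ncard_image_of_injective _ φ.injective
  have hsub : insert (⟨u, hu0⟩ : {x : G' // x ≠ 1}) (insert (φ v) (φ '' (E G \ {v}))) ⊆ E G' := by
    rw [himg]
    intro y hy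
    rcases hy with rfl | rfl | hy
    · exact hu3
    · change 2 ∣ orderOf (φ v : G')
      rw [hw2]
    · exact hy.2
  have hn1 : φ v ∉ φ '' (E G \ {v}) := by
    rw [himg]
    intro h
    exact hw h.1
  have hn2 : (⟨u, hu0⟩ : {x : G' // x ≠ 1}) ∉ insert (φ v) (φ '' (E G \ {v})) := by
    rw [himg]
    rintro (h | h)
    · exact hu2 (congrArg Subtype.val h)
    · exact hu1 h.1
  have hcard3 := Set.ncard_le_ncard hsub (Set.toFinite _)
  rw [Set.ncard_insert_of_notMem hn2 (Set.toFinite _),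
    Set.ncard_insert_of_notMem hn1 (Set.toFinite _), hcard2] at hcard3
  omega

/-- No vertex in `H` is mapped outside `H'`. -/
theorem maps_to (hH : H ≠ ⊥) (hH' : H' ≠ ⊥) (φ : nonCoprimeGraph G H ≃g nonCoprimeGraph G' H')
    {v : {x : G // x ≠ 1}} (hv : (v : G) ∈ H) : (φ v : G') ∈ H' := by
  by_contra hw
  have hlt := card_lt hH' φ hv hw
  have hv2 := stepOne hH' φ hv hw
  have hw2 := stepTwo φ hv hw hv2
  have h3 := stepThree φ hv hw hv2 hw2
  have hback : ∀ y : {x : G // x ≠ 1}, (φ y : G') ∈ H' → (y : G) ∈ H := by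
    intro y hy
    by_contra hyH
    have h4 := card_lt hH φ.symm (v := φ y) hy (by rwa [RelIso.symm_apply_apply])
    omega
  -- `v` is the only vertex of `H` which is mapped outside `H'`
  have honly : ∀ z : {x : G // x ≠ 1}, (z : G) ∈ H → (φ z : G') ∉ H' → z = v := by
    intro z hz hz'
    by_contra hne
    have hz2 := stepOne hH' φ hz hz'
    have h5 : (nonCoprimeGraph G H).Adj z v := by
      refine ⟨hne, ?_, Or.inr hv⟩
      rw [hz2, hv2]
      decide
    have h6 := (φ.map_adj_iff.2 h5).2.2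
    rcases h6 with h6 | h6
    · exact hz' h6
    · exact hw h6
  -- hence `|H'| + 1 = |H|`
  have himg : φ '' {z : {x : G // x ≠ 1} | (z : G) ∈ H} =
      insert (φ v) {z : {x : G' // x ≠ 1} | (z : G') ∈ H'} := by
    ext y
    obtain ⟨z, rfl⟩ := φ.surjective y
    constructor
    · rintro ⟨z', hz', he⟩
      have : z' = z := φ.injective he
      subst this
      by_cases h7 : (φ z' : G') ∈ H'
      · exact Or.inr h7
      · exact Or.inl (congrArg φ (honly z' hz' h7))
    · rintro (h7 | h7)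
      · exact ⟨z, by rw [φ.injective h7]; exact hv, rfl⟩
      · exact ⟨z, hback z h7, rfl⟩
  have hc1 := hcardH H
  have hc2 := hcardH H'
  have hc3 : (φ '' {z : {x : G // x ≠ 1} | (z : G) ∈ H}).ncard =
      {z : {x : G // x ≠ 1} | (z : G) ∈ H}.ncard :=
    Set.ncard_image_of_injective _ φ.injective
  have hwn : φ v ∉ {z : {x : G' // x ≠ 1} | (z : G') ∈ H'} := hw
  rw [himg, Set.ncard_insert_of_notMem hwn (Set.toFinite _)] at hc3
  have hHeven : 2 ∣ Nat.card H := by
    have := Subgroup.orderOf_dvd_natCard (s := H) hv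
    rwa [hv2] at this
  have hodd' : ¬ 2 ∣ Nat.card H' := by omega
  -- so `H'` has no element of even order, and `v` is the only element of even order of `G`
  have honlyE : ∀ u : G, 2 ∣ orderOf u → u = v := by
    intro u hu
    by_contra hne
    have hu1 : u ≠ 1 := by
      rintro rfl
      rw [orderOf_one] at hu
      omega
    have h9 := (h3 ⟨u, hu1⟩).1 ⟨fun h => hne (congrArg Subtype.val h), hu⟩
    apply hodd'
    exact (show 2 ∣ orderOf (φ ⟨u, hu1⟩ : G') from h9.2).trans
      (Subgroup.orderOf_dvd_natCard (s := H') h9.1)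
  have hall := only_even hv2 honlyE
  obtain ⟨k, hk⟩ := Subgroup.ne_bot_iff_exists_ne_one.1 hH'
  have hk1 : (k : G') ≠ 1 := fun h => hk (Subtype.ext h)
  obtain ⟨z, hz⟩ := φ.surjective ⟨(k : G'), hk1⟩
  rcases hall z with h | h
  · exact z.2 h
  · have : z = v := Subtype.ext h
    subst this
    apply hw
    rw [hz]
    exact k.2

end main

/-- Let `G`, `G'` be finite groups with nontrivial subgroups `H`, `H'`.  Every isomorphism of the
generalized non-coprime graphs maps `H` minus the identity onto `H'` minus the identity. -/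
theorem result (G G' : Type*) [Group G] [Group G'] [Finite G] [Finite G'] (H : Subgroup G)
    (H' : Subgroup G') (hH : H ≠ ⊥) (hH' : H' ≠ ⊥)
    (φ : nonCoprimeGraph G H ≃g nonCoprimeGraph G' H') :
    φ '' {z : {x : G // x ≠ 1} | (z : G) ∈ H} = {z : {x : G' // x ≠ 1} | (z : G') ∈ H'} := by
  ext y
  constructor
  · rintro ⟨z, hz, rfl⟩
    exact maps_to hH hH' φ hz
  · intro hy
    refine ⟨φ.symm y, maps_to hH' hH φ.symm hy, RelIso.apply_symm_apply φ y⟩

end Pool.Agent.Results.MP_acde3d_al.IsomorphismsPreserve
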